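import Pool.Agent.Helper88.CG.Goals
import Pool.Agent.Helper49.GM.TS
import Pool.Agent.Helper31.GM.GL
import Pool.Agent.Helper31.RR.CB
import Pool.Agent.Helper6.RR.BO
import Pool.Agent.Helper42.PP.TRE
import Pool.Agent.Helper8.GM.TL
import Pool.Agent.Helper96.GM.TR

/-! The second moment of a function given by labels, with up to two majorant points and up to two
roughness points. -/

set_option autoImplicit false

open Finset Filter Topology

open scoped Classical

namespace Pool.Agent.Helper19.CG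

open Pool.Agent.Helper88.PP (pr Rg om Sf SS uu vv ee LA VV QQ cost nc dd)

open Pool.Agent.Helper88.RR (gg ab TB WB nz wb DB Db VM GB)

open Pool.Agent.Helper88.GM (Sr In NI XI gB sp)

open Pool.Agent.Helper88.CG

open Pool.Agent.Helper77.RR (VM_nonneg ab_nonneg expo)

open Pool.Agent.Helper3.PP (om_nonneg VV_nonneg mem_SS mem_LA LA_sub sumBB)

open Pool.Agent.Helper49.GM (tlc XI_nonneg Sr_x Sr_y)

theorem Sr_yz {E z x y : ℕ} (hE : 4 ≤ E) (h : Sr E z x y) : y ≤ z := by
  have h0 := Sr_x h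
  obtain ⟨h1, h3, _, h5, h6, h7⟩ := h
  have hE' : (4 : ℝ) ≤ E := by exact_mod_cast hE
  have h2 : (E : ℝ) ≤ Real.log z := by
    have := Real.log_le_log (Real.exp_pos _) h1
    rwa [Real.log_exp] at this
  have h8 : 0 < Real.log x := by nlinarith only [h0, hE', h2]
  set L : ℝ := Real.log (Real.log x) with hL
  have h9 : 2 * L ≤ E := by
    rcases le_total L 2 with h | h
    · linarith
    · nlinarith [mul_nonneg (sub_nonneg.mpr h) (sub_nonneg.mpr h), sq_nonneg L,
        mul_nonneg (by linarith : (0 : ℝ) ≤ L) (by nlinarith : (0 : ℝ) ≤ L ^ 2 - 2)]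
  have h10 : Real.log x ^ 2 = Real.exp (2 * L) := by
    rw [hL, two_mul, Real.exp_add, Real.exp_log h8]
    ring
  have h11 : (y : ℝ) ≤ z := by
    calc (y : ℝ) ≤ Real.log x ^ 2 := h6
      _ = Real.exp (2 * L) := h10
      _ ≤ Real.exp E := Real.exp_le_exp.mpr h9
      _ ≤ z := h1
  exact_mod_cast h11

theorem tg : StmtTG := by
  have h0 : Pool.Agent.Helper88.GM.StmtGU := Pool.Agent.Helper31.GM.gu
  have h1 : Pool.Agent.Helper88.GM.StmtTL := Pool.Agent.Helper8.GM.tl Pool.Agent.Helper6.RR.bo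
  have h2 : Pool.Agent.Helper88.GM.StmtTR := Pool.Agent.Helper96.GM.tr Pool.Agent.Helper42.PP.tre
  have h3 : Pool.Agent.Helper88.RR.StmtCB := Pool.Agent.Helper31.RR.cb
  obtain ⟨c, hc, ETL, hTL⟩ := h1
  obtain ⟨_, C', _, hC', h4⟩ := Pool.Agent.Helper24.PP.ma
  obtain ⟨C, hC, hCB⟩ := h3
  set c0 : ℝ := min c 1 / 2 with hc0
  have hc0p : 0 < c0 := by
    rw [hc0]
    have := lt_min hc one_pos
    linarith
  have hc1 : 2 * c0 ≤ c := by
    rw [hc0]
    have := min_le_left c 1
    linarith
  have hc2 : 2 * c0 ≤ 1 := by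
    rw [hc0]
    have := min_le_right c 1
    linarith
  obtain ⟨Ee, hEe⟩ := expo c0 (8 * (3 * C ^ 2 * C' ^ 3)) hc0p (by positivity)
  refine ⟨c0, hc0p, max ETL (max Ee 64), fun E z x y hE hS u v Q b hIn m q K hm hqm hV hK P hPy hPA
    T cc F G0 hF hG0c hFG hT1 hT2 hT2' hT3 hT4 hT5 => ?_⟩
  have hE1 : ETL ≤ E := (le_max_left _ _).trans hE
  have hE3 : Ee ≤ E := ((le_max_left _ _).trans (le_max_right _ _)).trans hE
  have hE4 : 64 ≤ E := ((le_max_right _ _).trans (le_max_right _ _)).trans hE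
  have hM1 : 1 ≤ E / 16 := by omega
  have hEpos : (64 : ℝ) ≤ E := by exact_mod_cast hE4
  have hTL := hTL E z x y hE1 hS u v Q b hIn
  have hyz : y ≤ z := Sr_yz (by omega) hS
  have hP : P ⊆ Icc 1 z := hPy.trans (Finset.Icc_subset_Icc_right hyz)
  -- `z`
  have hzE : Real.exp E ≤ z := hS.1
  have hzE' : (E : ℝ) + 1 ≤ z := (Real.add_one_le_exp _).trans hzE
  have hzE2 : E + 1 ≤ z := by exact_mod_cast hzE'
  have hz3 : 2 ≤ z := by omega
  have hz0 : 1 ≤ z := by omega
  have hzp : (0 : ℝ) < z := by linarith only [hc0p, hc2, hEpos, hzE']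
  -- `y`
  have hy2 := Sr_y hS
  have hK2 : (2 * K) ^ 2 ≤ E := by
    rcases le_total 4 K with h | h
    · calc (2 * K) ^ 2 = 4 * K ^ 2 := by ring
        _ ≤ K * K ^ 2 := Nat.mul_le_mul_right _ h
        _ = K ^ 3 := by ring
        _ ≤ E := hK
    · have h5 : K ^ 2 ≤ 4 ^ 2 := Nat.pow_le_pow_left h 2
      calc (2 * K) ^ 2 = 4 * K ^ 2 := by ring
        _ ≤ 4 * 4 ^ 2 := Nat.mul_le_mul_left _ h5
        _ ≤ E := by omega
  have hKE : 2 * K ≤ E := by nlinarith only [hE4, hK2]
  have hyE : E * E ≤ y := by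
    have : ((E * E : ℕ) : ℝ) ≤ y := by
      push_cast
      nlinarith only [hy2]
    exact_mod_cast this
  have hy4 : 4 * (2 * K) ≤ y := by nlinarith only [hE4, hKE, hyE]
  have hy1 : 1 ≤ y := by nlinarith only [hE4, hyE]
  have ho := om_nonneg y z
  have hinj : Function.Injective (fun i : P => (i : ℕ)) := Subtype.val_injective
  have hgg : ∀ B : Finset P, B.card ≤ 2 * K →
      0 ≤ gB y z (B.image (fun i : P => (i : ℕ))) ∧
        gB y z (B.image (fun i : P => (i : ℕ))) ≤ (8 * om y z) ^ B.card := by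
    intro B hB
    have hcard : (B.image (fun i : P => (i : ℕ))).card = B.card :=
      Finset.card_image_of_injective B hinj
    have h5 := h0 y z (B.image (fun i : P => (i : ℕ))) hy1 (by
        intro i hi
        obtain ⟨j, _, rfl⟩ := Finset.mem_image.mp hi
        exact hP j.2) (by rw [hcard]; omega) (by
        rw [hcard]
        have e1 : (B.card : ℝ) ^ 2 ≤ E := by
          have : B.card ^ 2 ≤ E := (Nat.pow_le_pow_left hB 2).trans hK2
          exact_mod_cast this
        have e2 : 0 ≤ Real.log z := Real.log_nonneg (by linarith only [hc0p, hc2, hEpos, hzE'])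
        calc (B.card : ℝ) ^ 2 * Real.log z ≤ E * Real.log z := mul_le_mul_of_nonneg_right e1 e2
          _ ≤ Real.log x := Sr_x hS
          _ ≤ y := hS.2.2.2.1)
    rw [hcard] at h5
    exact ⟨h5.1, h5.2.2⟩
  have hgw : ∀ r : P → ℕ,
      gB y z ((univ.filter (fun i => r i ≠ 0)).image (fun i : P => (i : ℕ))) = gg y z (nz r) := by
    intro r
    have h5 := Pool.Agent.Helper31.GM.gw y z 0
      ((univ.filter (fun i => r i ≠ 0)).image (fun i : P => (i : ℕ))) (by
        intro i hi
        obtain ⟨j, _, rfl⟩ := Finset.mem_image.mp hi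
        have := hPy j.2
        rw [Finset.mem_Icc] at this ⊢
        omega)
    rw [h5, Finset.card_image_of_injective _ hinj]
    rfl
  have hMz : E / 16 ≤ z := by omega
  have hCBa := hCB m q (E / 16) z hm hz3 hMz hV
  have hCBb := hCB m q (E / 32) z hm hz3 (by omega) hV
  have hKsq : (36 : ℝ) * (K : ℝ) ^ 2 ≤ 36 * E := by
    have h5 : (K : ℝ) ^ 2 ≤ E := by
      have : K ^ 2 ≤ E := by nlinarith only [hE4, hK2]
      exact_mod_cast this
    linarith only [h5]
  -- constants
  set Lam : ℝ := 8 * (3 * C ^ 2 * (C' * ((2 * (E / 16) : ℕ) : ℝ)) ^ 3) with hLam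
  have hLam0 : 0 ≤ Lam := by positivity
  have hLamE : Lam ≤ 8 * (3 * C ^ 2 * C' ^ 3) * (E : ℝ) ^ 3 := by
    rw [hLam]
    have h5 : ((2 * (E / 16) : ℕ) : ℝ) ≤ E := by
      have : 2 * (E / 16) ≤ E := by omega
      exact_mod_cast this
    calc 8 * (3 * C ^ 2 * (C' * ((2 * (E / 16) : ℕ) : ℝ)) ^ 3)
        ≤ 8 * (3 * C ^ 2 * (C' * (E : ℝ)) ^ 3) := by
          gcongr
      _ = 8 * (3 * C ^ 2 * C' ^ 3) * (E : ℝ) ^ 3 := by ring
  set G : ℝ := (1 + Lam) * (1 + (E : ℝ) ^ 2 * Lam) ^ (2 * K) with hG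
  have hG0 : 0 ≤ G := by positivity
  have hGE : (1 + 36 * (E : ℝ)) * G ≤ Real.exp (c0 * E) := by
    refine le_trans ?_ (hEe E K hE3 hK)
    rw [hG]
    gcongr
  have hfin : (Real.exp (-(c * E)) + 9 * ((2 * K : ℕ) : ℝ) ^ 2 / z) * G
      ≤ Real.exp (-(c0 * E)) := by
    have h5 : Real.exp (-(c * E)) ≤ Real.exp (-(2 * c0 * E)) := by
      refine Real.exp_le_exp.mpr ?_
      have := mul_le_mul_of_nonneg_right hc1 (by linarith only [hc0p, hc2, hEpos] : (0 : ℝ) ≤ E)
      linarith only [this]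
    have h6 : 9 * ((2 * K : ℕ) : ℝ) ^ 2 / z ≤ 36 * E * Real.exp (-(2 * c0 * E)) := by
      have h7 : 9 * ((2 * K : ℕ) : ℝ) ^ 2 = 36 * (K : ℝ) ^ 2 := by
        push_cast
        ring
      rw [h7, div_le_iff₀ hzp]
      have h8 : (1 : ℝ) ≤ Real.exp (-(2 * c0 * E)) * z := by
        calc (1 : ℝ) = Real.exp (-(E : ℝ)) * Real.exp E := by
              rw [← Real.exp_add, neg_add_cancel, Real.exp_zero]
          _ ≤ Real.exp (-(2 * c0 * E)) * z := by
              refine mul_le_mul ?_ hzE (Real.exp_pos _).le (Real.exp_pos _).le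
              refine Real.exp_le_exp.mpr ?_
              have := mul_le_mul_of_nonneg_right hc2 (by linarith only [hc0p, hc2, hEpos] : (0 : ℝ) ≤ E)
              linarith only [this]
      calc 36 * (K : ℝ) ^ 2 ≤ 36 * E := hKsq
        _ = 36 * E * 1 := by ring
        _ ≤ 36 * E * (Real.exp (-(2 * c0 * E)) * z) :=
            mul_le_mul_of_nonneg_left h8 (by positivity)
        _ = 36 * E * Real.exp (-(2 * c0 * E)) * z := by ring
    calc (Real.exp (-(c * E)) + 9 * ((2 * K : ℕ) : ℝ) ^ 2 / z) * G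
        ≤ (Real.exp (-(2 * c0 * E)) + 36 * E * Real.exp (-(2 * c0 * E))) * G :=
          mul_le_mul_of_nonneg_right (add_le_add h5 h6) hG0
      _ = Real.exp (-(2 * c0 * E)) * ((1 + 36 * (E : ℝ)) * G) := by ring
      _ ≤ Real.exp (-(2 * c0 * E)) * Real.exp (c0 * E) :=
          mul_le_mul_of_nonneg_left hGE (Real.exp_pos _).le
      _ = Real.exp (-(c0 * E)) := by
          rw [← Real.exp_add]
          congr 1
          ring
  -- the sets
  set al : P → ℕ → ℝ := fun i r =>
    if i ∈ F then (if r ∈ SS z (z ^ (E / 32)) then 1 / (VM (E / 32) z * (Nat.totient r : ℝ))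
      else 0)
    else if i ∈ G0 then (if r = 1 then 1 else 0)
    else (if r = 0 then 1 else if r ∈ LA z m (q * m) then ab m q z r else 0) with hal
  set BB : Finset (Finset P) :=
    (univ : Finset (Finset P)).filter (fun B => (∅ : Finset P) ⊆ B ∧ B.card ≤ 2 * K) with hBB
  have hSS0 : ∀ r, r ∈ SS z (z ^ (E / 16)) → r ≠ 0 := by
    intro r hr
    have := (mem_SS.mp hr).1.1
    omega
  have hsub : ∀ r, r ∈ SS z (z ^ (E / 32)) → r ∈ SS z (z ^ (E / 16)) := by
    intro r hr
    rw [mem_SS] at hr ⊢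
    refine ⟨⟨hr.1.1, hr.1.2.trans_le (Nat.pow_le_pow_right hz0 (by omega))⟩, hr.2⟩
  have hLA0 : ∀ r, r ∈ LA z m (q * m) → r ≠ 0 := fun r hr =>
    hSS0 r (LA_sub hz0 hqm hr)
  have hone : 1 ∈ SS z (z ^ (E / 16)) := by
    rw [mem_SS]
    refine ⟨⟨le_rfl, ?_⟩, ?_⟩
    · exact Nat.one_lt_pow (by omega) (by omega)
    · refine ⟨squarefree_one, ?_⟩
      intro p hp hp1
      exact absurd (Nat.dvd_one.mp hp1) hp.one_lt.ne'
  have hlab : ∀ r ∈ T, ∀ i, r i = 0 ∨ r i ∈ SS z (z ^ (E / 16)) := by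
    intro r hr i
    by_cases hi : i ∈ F
    · exact Or.inr (hsub _ (hT2 r hr i hi))
    · by_cases hi' : i ∈ G0
      · rw [hT2' r hr i hi']
        exact Or.inr hone
      · rcases hT1 r hr i hi hi' with h5 | h5
        · exact Or.inl h5
        · exact Or.inr (LA_sub hz0 hqm h5)
  have hV1 := VM_nonneg (E / 32) z
  have hXI := XI_nonneg u v Q
  have key := h2 P (fun i => (i : ℕ)) y z (z ^ (E / 16)) (z ^ (E / 4)) (2 * K) (NI u v Q b)
    (XI u v Q) (8 * om y z) (Real.exp (-(c * E))) C
    (fun B : Finset P => gB y z (B.image (fun i : P => (i : ℕ)))) T cc al BB hz3 hXI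
    (by positivity) (Real.exp_pos _).le hC (fun B hB => hgg B (by
      rw [hBB, Finset.mem_filter] at hB
      exact hB.2.2)) hlab ?_ ?_ ?_ ?_ ?_ ?_ ?_ ?_ ?_
  · simp only [hgw] at key
    refine key.trans ?_
    have hX2 : (z ^ (E / 16)) ^ 2 = z ^ (2 * (E / 16)) := by rw [← pow_mul, mul_comm]
    have hMA := (h4 z (2 * (E / 16)) hz3 (by omega)).2.2
    rw [← hX2] at hMA
    set w : ℝ := 3 * C ^ 2 * ∑ e ∈ SS z ((z ^ (E / 16)) ^ 2), (3 : ℝ) ^ e.primeFactors.card / e
      with hw
    have hw0 : 0 ≤ w := by positivity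
    have hwL : 8 * w ≤ Lam := by
      rw [hw, hLam]
      have := mul_le_mul_of_nonneg_left hMA (by positivity : (0 : ℝ) ≤ 3 * C ^ 2)
      linarith only [this]
    have hsum := sumBB (∅ : Finset P) (2 * K) (8 * om y z * w) (by positivity)
    have hnu : (Fintype.card P : ℝ) * (8 * om y z * w) ≤ (E : ℝ) ^ 2 * Lam := by
      rw [Fintype.card_coe]
      calc (P.card : ℝ) * (8 * om y z * w) = (P.card : ℝ) * om y z * (8 * w) := by ring
        _ ≤ (E : ℝ) ^ 2 * Lam := mul_le_mul hPA hwL (by positivity) (by positivity)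
    have hsum2 : ∑ B ∈ BB, (8 * om y z * w) ^ B.card ≤ G := by
      refine hsum.trans ?_
      rw [hG, Finset.card_empty, pow_zero]
      refine mul_le_mul (by linarith only [hLam0]) ?_ (by positivity) (by positivity)
      exact pow_le_pow_left₀ (by positivity) (by linarith only [hnu]) _
    have hδ : 0 ≤ Real.exp (-(c * E)) + 9 * ((2 * K : ℕ) : ℝ) ^ 2 / z := by positivity
    calc XI u v Q * (Real.exp (-(c * E)) + 9 * ((2 * K : ℕ) : ℝ) ^ 2 / z) *
          ∑ B ∈ BB, (8 * om y z * w) ^ B.card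
        ≤ XI u v Q * (Real.exp (-(c * E)) + 9 * ((2 * K : ℕ) : ℝ) ^ 2 / z) * G :=
          mul_le_mul_of_nonneg_left hsum2 (mul_nonneg hXI hδ)
      _ = ((Real.exp (-(c * E)) + 9 * ((2 * K : ℕ) : ℝ) ^ 2 / z) * G) * XI u v Q := by ring
      _ ≤ Real.exp (-(c0 * E)) * XI u v Q :=
          mul_le_mul_of_nonneg_right hfin hXI
  · -- a label `1` only occurs on `F` and `G0`
    intro r hr s hs i hi
    by_cases hiF : i ∈ F
    · exact hSS0 _ (hsub _ (hT2 s hs i hiF))
    · by_cases hiG : i ∈ G0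
      · rw [hT2' s hs i hiG]
        exact one_ne_zero
      · exfalso
        rcases hT1 r hr i hiF hiG with h5 | h5
        · omega
        · have h6 := (mem_LA.mp h5).2
          have h7 : z ^ 1 ≤ z ^ m := Nat.pow_le_pow_right hz0 hm
          rw [pow_one] at h7
          omega
  · -- size
    intro r hr
    calc (∏ i, max 1 (r i)) ^ 2 ≤ (z ^ (2 * (E / 16))) ^ 2 := Nat.pow_le_pow_left (hT4 r hr) 2
      _ = z ^ (2 * (E / 16) * 2) := by rw [← pow_mul]
      _ ≤ z ^ (E / 4) := Nat.pow_le_pow_right hz0 (by omega)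
  · -- supports
    intro r hr s hs
    rw [hBB, Finset.mem_filter]
    refine ⟨Finset.mem_univ _, Finset.empty_subset _, ?_⟩
    rw [Finset.filter_or]
    refine (Finset.card_union_le _ _).trans ?_
    have h5 := hT3 r hr
    have h6 := hT3 s hs
    unfold nz at h5 h6
    omega
  · intro B hB
    rw [hBB, Finset.mem_filter] at hB
    exact hB.2.2
  · -- nonnegativity
    intro i r
    rw [hal]
    have h5 := ab_nonneg m q z r
    simp only
    split_ifs <;> positivity
  · intro i
    rw [hal]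
    simp only
    by_cases hi : i ∈ F
    · rw [if_pos hi, if_neg (fun h5 => hSS0 0 (hsub _ h5) rfl)]
      norm_num
    · rw [if_neg hi]
      by_cases hi' : i ∈ G0
      · rw [if_pos hi']
        norm_num
      · rw [if_neg hi']
        simp
  · -- the coefficients
    intro r hr
    refine (hT5 r hr).trans (le_of_eq (Finset.prod_congr rfl fun i _ => ?_))
    rw [hal]
    simp only
    by_cases hi : i ∈ F
    · rw [if_pos hi, if_pos hi, if_pos (hT2 r hr i hi)]
    · rw [if_neg hi, if_neg hi]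
      by_cases hi' : i ∈ G0
      · rw [if_pos hi', if_pos hi', if_pos (hT2' r hr i hi')]
      · rw [if_neg hi', if_neg hi']
        rcases hT1 r hr i hi hi' with h5 | h5
        · rw [if_pos h5, if_pos h5]
        · rw [if_neg (hLA0 _ h5), if_neg (hLA0 _ h5), if_pos h5]
  · -- divisor sums
    intro i d hd
    obtain ⟨hc1, _⟩ := hCBa d hd
    by_cases hi : i ∈ F
    · have h5 : ∑ r ∈ (SS z (z ^ (E / 16))).filter (fun r => d ∣ r), al i r
          = 1 / VM (E / 32) z * ∑ r ∈ (SS z (z ^ (E / 32))).filter (fun r => d ∣ r),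
            1 / (Nat.totient r : ℝ) := by
        have h6 : ∀ r ∈ (SS z (z ^ (E / 16))).filter (fun r => d ∣ r), al i r =
            if r ∈ SS z (z ^ (E / 32)) then 1 / (VM (E / 32) z * (Nat.totient r : ℝ)) else 0 := by
          intro r hr
          rw [hal]
          simp only
          rw [if_pos hi]
        rw [Finset.sum_congr rfl h6, ← Finset.sum_filter, Finset.mul_sum]
        refine Finset.sum_congr ?_ fun r _ => ?_
        · ext r
          simp only [Finset.mem_filter]
          constructor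
          · rintro ⟨⟨_, h7⟩, h8⟩
            exact ⟨h8, h7⟩
          · rintro ⟨h7, h8⟩
            exact ⟨⟨hsub _ h7, h8⟩, h7⟩
        · rw [one_div_mul_one_div]
      rw [h5]
      by_cases hd2 : d ∈ SS z (z ^ (E / 32))
      · obtain ⟨_, hc2⟩ := hCBb d hd2
        have h6 : ∑ r ∈ SS z (z ^ (E / 32)), 1 / (Nat.totient r : ℝ) = VM (E / 32) z := rfl
        rw [h6] at hc2
        rcases hV1.eq_or_lt with h7 | h7
        · rw [← h7]
          simp
          linarith
        · calc (d : ℝ) * (1 / VM (E / 32) z * ∑ r ∈ (SS z (z ^ (E / 32))).filter (fun r => d ∣ r),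
              1 / (Nat.totient r : ℝ))
              = ((d : ℝ) * ∑ r ∈ (SS z (z ^ (E / 32))).filter (fun r => d ∣ r),
              1 / (Nat.totient r : ℝ)) / VM (E / 32) z := by ring
            _ ≤ C * VM (E / 32) z / VM (E / 32) z := by gcongr
            _ = C := by field_simp
      · have h7 : (SS z (z ^ (E / 32))).filter (fun r => d ∣ r) = ∅ := by
          rw [Finset.filter_eq_empty_iff]
          intro r hr hdr
          apply hd2
          rw [mem_SS] at hr hd ⊢
          exact ⟨⟨hd.1.1, (Nat.le_of_dvd hr.1.1 hdr).trans_lt hr.1.2⟩, hd.2⟩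
        rw [h7]
        simp
        linarith only [hC, hc0p, hc2]
    · by_cases hi' : i ∈ G0
      · have h6 : ∀ r ∈ (SS z (z ^ (E / 16))).filter (fun r => d ∣ r), al i r =
            if r = 1 then 1 else 0 := by
          intro r hr
          rw [hal]
          simp only
          rw [if_neg hi, if_pos hi']
        rw [Finset.sum_congr rfl h6]
        by_cases hd1 : d = 1
        · subst hd1
          rw [Finset.sum_ite_eq' _ 1 (fun _ => (1 : ℝ))]
          split_ifs <;> norm_num <;> linarith only [hC, hc0p, hc2]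
        · have h7 : ∑ r ∈ (SS z (z ^ (E / 16))).filter (fun r => d ∣ r),
              (if r = 1 then (1 : ℝ) else 0) = 0 := by
            refine Finset.sum_eq_zero fun r hr => ?_
            rw [if_neg]
            rintro rfl
            exact hd1 (Nat.dvd_one.mp (Finset.mem_filter.mp hr).2)
          rw [h7, mul_zero]
          linarith only [hC, hc0p, hc2]
      · refine le_of_eq_of_le ?_ hc1
        congr 1
        have h5 : ∀ r ∈ (SS z (z ^ (E / 16))).filter (fun r => d ∣ r), al i r =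
            if r ∈ LA z m (q * m) then ab m q z r else 0 := by
          intro r hr
          rw [hal]
          simp only
          rw [if_neg hi, if_neg hi', if_neg (hSS0 r (Finset.mem_filter.mp hr).1)]
        rw [Finset.sum_congr rfl h5, ← Finset.sum_filter]
        refine Finset.sum_congr ?_ fun _ _ => rfl
        ext r
        simp only [Finset.mem_filter]
        constructor
        · rintro ⟨⟨_, h7⟩, h8⟩
          exact ⟨h8, h7⟩
        · rintro ⟨h7, h8⟩
          exact ⟨⟨LA_sub hz0 hqm h7, h8⟩, h7⟩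
  · -- counting
    intro d hd hD hdB
    rw [hBB, Finset.mem_filter] at hdB
    refine tlc (Real.exp_pos _).le hXI hP (fun B hB hBK d hd hD => ?_) d hd hD hdB.2.2
    exact hTL B hB ((Nat.pow_le_pow_left hBK 2).trans hK2) d hd hD

end Pool.Agent.Helper19.CG
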